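import Mathlib

/-!
Two square relations and a Pell equation split the values of a monic cubic in four parts.
-/

set_option autoImplicit false

open Polynomial

namespace Pool.Agent.P.MP_4ef411_nt

/-- The norm of `e0 + e1 X + e2 X^2` modulo `X^3 + a X^2 + b X + c`. -/
def nrm (a b c e0 e1 e2 : ℤ) : ℤ :=
  e0 * ((e0 - b * e2) * (e0 - b * e2 - a * (e1 - a * e2)) -
      (e1 - a * e2) * (-c * e2 - b * (e1 - a * e2))) -
    e1 * (-c * e2 * (e0 - b * e2 - a * (e1 - a * e2)) - (e1 - a * e2) * (-c * (e1 - a * e2))) +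
    e2 * (-c * e2 * (-c * e2 - b * (e1 - a * e2)) - (e0 - b * e2) * (-c * (e1 - a * e2)))

theorem dvd_of_eq {p x y : ℤ} (h : p ∣ x) (e : x = y) : p ∣ y := e ▸ h

theorem dvd_nrm {a b c e0 e1 e2 n p : ℤ} (hf : p ∣ n ^ 3 + a * n ^ 2 + b * n + c)
    (he : p ∣ e0 + e1 * n + e2 * n ^ 2) : p ∣ nrm a b c e0 e1 e2 := by
  have hR : p ∣ -c * e2 + (e0 - b * e2) * n + (e1 - a * e2) * n ^ 2 :=
    dvd_of_eq ((he.mul_left n).sub (hf.mul_left e2)) (by ring)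
  have hS : p ∣ -c * (e1 - a * e2) + (-c * e2 - b * (e1 - a * e2)) * n +
      (e0 - b * e2 - a * (e1 - a * e2)) * n ^ 2 :=
    dvd_of_eq ((hR.mul_left n).sub (hf.mul_left (e1 - a * e2))) (by ring)
  refine dvd_of_eq (((he.mul_right ((e0 - b * e2) * (e0 - b * e2 - a * (e1 - a * e2)) -
      (e1 - a * e2) * (-c * e2 - b * (e1 - a * e2)))).sub
    (hR.mul_right (e1 * (e0 - b * e2 - a * (e1 - a * e2)) -
      e2 * (-c * e2 - b * (e1 - a * e2))))).add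
    (hS.mul_right (e1 * (e1 - a * e2) - e2 * (e0 - b * e2)))) ?_
  unfold nrm
  ring

theorem exists_roots (a b c : ℂ) : ∃ r s t : ℂ,
    a = -(r + s + t) ∧ b = r * s + r * t + s * t ∧ c = -(r * s * t) := by
  obtain ⟨r, hr⟩ := Complex.exists_root (f := X ^ 3 + C a * X ^ 2 + C b * X + C c) (by
    have : (X ^ 3 + C a * X ^ 2 + C b * X + C c : ℂ[X]).degree = 3 := by compute_degree!
    rw [this]
    norm_num)
  simp only [IsRoot.def, eval_add, eval_pow, eval_X, eval_mul, eval_C] at hr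
  obtain ⟨q, hq⟩ := IsAlgClosed.exists_pow_nat_eq ((a + r) ^ 2 - 4 * (b + r * (a + r))) two_pos
  refine ⟨r, (-(a + r) + q) / 2, (-(a + r) - q) / 2, by ring, ?_, ?_⟩
  · linear_combination (1 / 4) * hq
  · linear_combination hr - (r / 4) * hq

theorem nrm_eq {a b c e0 e1 e2 : ℤ} {r s t : ℂ} (ha : (a : ℂ) = -(r + s + t))
    (hb : (b : ℂ) = r * s + r * t + s * t) (hc : (c : ℂ) = -(r * s * t)) :
    (nrm a b c e0 e1 e2 : ℂ) = (e0 + e1 * r + e2 * r ^ 2) * (e0 + e1 * s + e2 * s ^ 2) *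
      (e0 + e1 * t + e2 * t ^ 2) := by
  unfold nrm
  push_cast
  rw [ha, hb, hc]
  ring

/-- A rational line through two rational points of the conic has no further point on it. -/
theorem line_ne_zero {A B A' B' x₁ y₁ n₁ u w n r X Y : ℂ} (hA : A ≠ 0) (hA' : A' ≠ 0)
    (hx₁ : x₁ ^ 2 = A * n₁ + B) (hy₁ : y₁ ^ 2 = A' * n₁ + B') (hp : u ^ 2 - A * A' * w ^ 2 = 1)
    (hx : ((u ^ 2 + A * A' * w ^ 2) * x₁ + A * (2 * u * w) * y₁) ^ 2 = A * n + B)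
    (hX : X ^ 2 = A * r + B) (hY : Y ^ 2 = A' * r + B') (h₁ : r ≠ n₁) (h₂ : r ≠ n) :
    u * (X - x₁) - A * w * (Y + y₁) ≠ 0 := by
  intro h
  by_cases h0 : Y + y₁ = 0
  · refine h₁ (mul_left_cancel₀ hA' ?_)
    linear_combination hy₁ - hY + (Y - y₁) * h0
  · have h3 : u * (Y - y₁) = A' * w * (X + x₁) := by
      refine mul_left_cancel₀ (mul_ne_zero hA h0) ?_
      linear_combination u * A * (hY - hy₁) - u * A' * (hX - hx₁) + A' * (X + x₁) * h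
    have h4 : X = (u ^ 2 + A * A' * w ^ 2) * x₁ + A * (2 * u * w) * y₁ := by
      linear_combination u * h + A * w * h3 - X * hp
    refine h₂ (mul_left_cancel₀ hA ?_)
    rw [← h4] at hx
    linear_combination hx - hX

theorem exists_sign {p g x : ℤ} (hp : Prime p) (h : p ∣ g ^ 2 - x ^ 2) :
    ∃ ε : ℤ, (ε = 1 ∨ ε = -1) ∧ p ∣ ε * g - x := by
  rcases hp.dvd_or_dvd (dvd_of_eq h (by ring : _ = (g - x) * (-g - x) * -1) |> fun h' =>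
    (dvd_neg.1 (dvd_of_eq h' (by ring : _ = -((g - x) * (-g - x)))))) with h1 | h1
  · exact ⟨1, Or.inl rfl, dvd_of_eq h1 (by ring)⟩
  · exact ⟨-1, Or.inr rfl, dvd_of_eq h1 (by ring)⟩

theorem norm_line_le {A x₁ y₁ u w ε ε' : ℤ} (hA : 0 ≤ A) (hx : 0 ≤ x₁) (hy : 0 ≤ y₁)
    (hw : 0 ≤ w) (hwu : w ≤ u) (hε : ε = 1 ∨ ε = -1) (hε' : ε' = 1 ∨ ε' = -1) (X Y : ℂ) :
    ‖(u * (ε * X - x₁) - A * w * (ε' * Y + y₁) : ℂ)‖ ≤ u * (‖X‖ + x₁ + A * (‖Y‖ + y₁)) := by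
  have e1 : ‖(ε : ℂ)‖ = 1 := by rcases hε with rfl | rfl <;> simp
  have e2 : ‖(ε' : ℂ)‖ = 1 := by rcases hε' with rfl | rfl <;> simp
  have hn : ∀ z : ℤ, 0 ≤ z → ‖(z : ℂ)‖ = z := fun z hz => by
    rw [Complex.norm_intCast, abs_of_nonneg (by exact_mod_cast hz)]
  have h1 : ‖(ε * X - x₁ : ℂ)‖ ≤ ‖X‖ + x₁ := by
    refine (norm_sub_le _ _).trans ?_
    rw [norm_mul, e1, one_mul, hn _ hx]
  have h2 : ‖(ε' * Y + y₁ : ℂ)‖ ≤ ‖Y‖ + y₁ := by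
    refine (norm_add_le _ _).trans ?_
    rw [norm_mul, e2, one_mul, hn _ hy]
  have hA' : (0 : ℝ) ≤ A := by exact_mod_cast hA
  have hw' : (0 : ℝ) ≤ w := by exact_mod_cast hw
  have hwu' : (w : ℝ) ≤ u := by exact_mod_cast hwu
  have hu' : (0 : ℝ) ≤ u := hw'.trans hwu'
  refine (norm_sub_le _ _).trans ?_
  rw [norm_mul, norm_mul, norm_mul, hn _ hA, hn _ hw, hn _ (hw.trans hwu), mul_add (u : ℝ)]
  refine add_le_add (mul_le_mul_of_nonneg_left h1 (hw'.trans hwu')) ?_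
  calc (A : ℝ) * w * ‖(ε' * Y + y₁ : ℂ)‖ ≤ A * u * (‖Y‖ + y₁) := by gcongr
    _ = u * (A * (‖Y‖ + y₁)) := by ring

theorem pell_data {D M : ℤ} (hD : 0 < D) (hsq : ¬ IsSquare D) (hM : 0 < M) (N : ℕ) :
    ∃ u w : ℤ, 0 < w ∧ w < u ∧ (N : ℤ) ≤ w ∧ M ∣ w ∧ u ^ 2 - D * w ^ 2 = 1 := by
  have hk : 0 < M * (N + 1) := by positivity
  obtain ⟨u₀, v₀, hp₀, hv₀⟩ := Pell.exists_of_not_isSquare (d := D * (M * (N + 1)) ^ 2)
    (by positivity) fun h => hsq (by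
      obtain ⟨q, hq⟩ := h
      have h1 : (M * (N + 1)) ^ 2 ∣ q ^ 2 := ⟨D, by rw [sq q, ← hq]; ring⟩
      obtain ⟨m, rfl⟩ := (Int.pow_dvd_pow_iff two_ne_zero).1 h1
      exact ⟨m, mul_right_cancel₀ (pow_ne_zero 2 hk.ne') (by rw [hq]; ring)⟩)
  obtain ⟨u, hu0, hu⟩ : ∃ u : ℤ, 0 ≤ u ∧ u ^ 2 = u₀ ^ 2 := ⟨|u₀|, abs_nonneg _, sq_abs _⟩
  obtain ⟨v, hv0, hv⟩ : ∃ v : ℤ, 0 < v ∧ v ^ 2 = v₀ ^ 2 := ⟨|v₀|, abs_pos.2 hv₀, sq_abs _⟩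
  have hp : u ^ 2 - D * (M * (N + 1) * v) ^ 2 = 1 := by
    rw [hu, mul_pow _ v, hv]
    linear_combination hp₀
  refine ⟨u, M * (N + 1) * v, by positivity, ?_, ?_, (dvd_mul_right _ _).mul_right _, hp⟩
  · refine lt_of_pow_lt_pow_left₀ 2 hu0 ?_
    have h1 := le_mul_of_one_le_left (sq_nonneg (M * (N + 1) * v)) hD
    linarith
  · have h1 : 1 ≤ M * v := one_le_mul_of_one_le_of_one_le hM hv0
    have h2 := le_mul_of_one_le_left (show (0 : ℤ) ≤ N + 1 by positivity) h1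
    linarith [show M * (N + 1) * v = M * v * (N + 1) by ring]

theorem sizes {A A' x₁ y₁ n₁ u w n : ℤ} (hA : 0 < A) (hA' : 0 < A') (hx : 0 < x₁) (hy : 0 ≤ y₁)
    (hn₁ : 0 ≤ n₁) (hw0 : 0 < w) (hu1 : 0 < u) (hp : u ^ 2 - A * A' * w ^ 2 = 1)
    (hn : n = n₁ + 2 * u * w * (A' * (2 * u * w) * x₁ ^ 2 +
      2 * (u ^ 2 + A * A' * w ^ 2) * x₁ * y₁ + A * (2 * u * w) * y₁ ^ 2)) :
    w ≤ n ∧ n₁ ≤ n ∧ u ^ 4 ≤ A * A' * n := by
  have hD : 0 < A * A' := mul_pos hA hA'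
  have hw2 : 1 ≤ w ^ 2 := one_le_pow₀ hw0
  have hlow : n₁ + 4 * (u ^ 2 * w ^ 2) ≤ n := by
    have h1 : 1 ≤ A' * x₁ ^ 2 := one_le_mul_of_one_le_of_one_le hA' (one_le_pow₀ hx)
    have h2 : 0 ≤ 2 * u * w * (2 * (u ^ 2 + A * A' * w ^ 2) * x₁ * y₁ +
      A * (2 * u * w) * y₁ ^ 2) := by positivity
    have h3 : 0 ≤ u ^ 2 * w ^ 2 := by positivity
    have h4 := mul_le_mul_of_nonneg_left h1 h3
    have h5 : n = n₁ + 4 * (u ^ 2 * w ^ 2 * (A' * x₁ ^ 2)) + 2 * u * w *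
      (2 * (u ^ 2 + A * A' * w ^ 2) * x₁ * y₁ + A * (2 * u * w) * y₁ ^ 2) := by rw [hn]; ring
    linarith
  clear hn
  have huw : w ≤ u ^ 2 * w ^ 2 :=
    calc w ≤ w * w := le_mul_of_one_le_left hw0.le hw0
      _ = w ^ 2 := (sq w).symm
      _ ≤ u ^ 2 * w ^ 2 := le_mul_of_one_le_left (sq_nonneg _) (one_le_pow₀ hu1)
  refine ⟨by linarith, by linarith, ?_⟩
  have h1 : 1 ≤ A * A' * w ^ 2 := one_le_mul_of_one_le_of_one_le hD hw2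
  calc u ^ 4 = u ^ 2 * u ^ 2 := by ring
    _ ≤ u ^ 2 * (4 * (A * A' * w ^ 2)) := mul_le_mul_of_nonneg_left (by linarith) (sq_nonneg u)
    _ = A * A' * (4 * (u ^ 2 * w ^ 2)) := by ring
    _ ≤ A * A' * n := mul_le_mul_of_nonneg_left (by linarith) hD.le

theorem core {a b c g0 g1 g2 d0 d1 d2 A B A' B' x₁ y₁ n₁ M : ℤ}
    (hg : ∀ n : ℤ, n ^ 3 + a * n ^ 2 + b * n + c ∣ (g0 + g1 * n + g2 * n ^ 2) ^ 2 - (A * n + B))
    (hd : ∀ n : ℤ, n ^ 3 + a * n ^ 2 + b * n + c ∣ (d0 + d1 * n + d2 * n ^ 2) ^ 2 - (A' * n + B'))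
    (hg' : ∀ r : ℂ, r ^ 3 + a * r ^ 2 + b * r + c = 0 →
      (g0 + g1 * r + g2 * r ^ 2) ^ 2 = A * r + B)
    (hd' : ∀ r : ℂ, r ^ 3 + a * r ^ 2 + b * r + c = 0 →
      (d0 + d1 * r + d2 * r ^ 2) ^ 2 = A' * r + B')
    (hA : 0 < A) (hA' : 0 < A') (hsq : ¬ IsSquare (A * A')) (hx : 0 < x₁) (hy : 0 ≤ y₁)
    (hx₁ : x₁ ^ 2 = A * n₁ + B) (hy₁ : y₁ ^ 2 = A' * n₁ + B') (hn₁ : 0 ≤ n₁)
    (hf : ∀ n, n₁ ≤ n → n ^ 3 + a * n ^ 2 + b * n + c ≠ 0) (hM : 0 < M) :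
    ∃ K : ℝ, 0 ≤ K ∧ ∀ N : ℕ, ∃ n : ℤ, (N : ℤ) ≤ n ∧ n₁ ≤ n ∧ M ∣ n - n₁ ∧
      ∀ p : ℕ, p.Prime → (p : ℤ) ∣ n ^ 3 + a * n ^ 2 + b * n + c → (p : ℝ) ^ 4 ≤ K * n ^ 3 := by
  obtain ⟨r, s, t, ha, hb, hc⟩ := exists_roots a b c
  let L : ℂ → ℝ := fun z => ‖(g0 + g1 * z + g2 * z ^ 2 : ℂ)‖ + x₁ +
    A * (‖(d0 + d1 * z + d2 * z ^ 2 : ℂ)‖ + y₁)
  refine ⟨(L r * L s * L t) ^ 4 * (A * A') ^ 3, by positivity, fun N => ?_⟩
  have hD : 0 < A * A' := mul_pos hA hA'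
  obtain ⟨u, w, hw0, hwu, hwN, hMw, hp⟩ := pell_data hD hsq hM N
  have hu1 : 0 < u := hw0.trans hwu
  obtain ⟨n, hn⟩ : ∃ n, n = n₁ + 2 * u * w * (A' * (2 * u * w) * x₁ ^ 2 +
    2 * (u ^ 2 + A * A' * w ^ 2) * x₁ * y₁ + A * (2 * u * w) * y₁ ^ 2) := ⟨_, rfl⟩
  have hxn : ((u ^ 2 + A * A' * w ^ 2) * x₁ + A * (2 * u * w) * y₁) ^ 2 = A * n + B := by
    rw [hn]
    linear_combination hx₁ + x₁ ^ 2 * (u ^ 2 - A * A' * w ^ 2 + 1) * hp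
  have hyn : (A' * (2 * u * w) * x₁ + (u ^ 2 + A * A' * w ^ 2) * y₁) ^ 2 = A' * n + B' := by
    rw [hn]
    linear_combination hy₁ + y₁ ^ 2 * (u ^ 2 - A * A' * w ^ 2 + 1) * hp
  obtain ⟨hwn, hn₁n, hu4⟩ := sizes hA hA' hx hy hn₁ hw0 hu1 hp hn
  refine ⟨n, by linarith, hn₁n, ?_, fun p hpp hpf => ?_⟩
  · rw [hn, add_sub_cancel_left]
    exact (hMw.mul_left _).mul_right _
  clear hn
  have hpz : Prime (p : ℤ) := Nat.prime_iff_prime_int.1 hpp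
  obtain ⟨ε, hε, h1⟩ := exists_sign hpz (hxn ▸ hpf.trans (hg n))
  obtain ⟨ε', hε', h2⟩ := exists_sign hpz (hyn ▸ hpf.trans (hd n))
  have hE : (p : ℤ) ∣ (u * (ε * g0 - x₁) - A * w * (ε' * d0 + y₁)) +
      (u * ε * g1 - A * w * ε' * d1) * n + (u * ε * g2 - A * w * ε' * d2) * n ^ 2 :=
    dvd_of_eq ((h1.mul_left u).sub (h2.mul_left (A * w))) (by
      linear_combination (-(u * x₁) - A * w * y₁) * hp)
  have hdv := dvd_nrm hpf hE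
  have hpr := nrm_eq (e0 := u * (ε * g0 - x₁) - A * w * (ε' * d0 + y₁))
    (e1 := u * ε * g1 - A * w * ε' * d1) (e2 := u * ε * g2 - A * w * ε' * d2) ha hb hc
  have hε2 : (ε : ℂ) ^ 2 = 1 := by rcases hε with rfl | rfl <;> simp
  have hε2' : (ε' : ℂ) ^ 2 = 1 := by rcases hε' with rfl | rfl <;> simp
  have key : ∀ z : ℂ, z ^ 3 + a * z ^ 2 + b * z + c = 0 → ∀ e : ℂ,
      e = ((u * (ε * g0 - x₁) - A * w * (ε' * d0 + y₁) : ℤ) : ℂ) +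
        ((u * ε * g1 - A * w * ε' * d1 : ℤ) : ℂ) * z +
        ((u * ε * g2 - A * w * ε' * d2 : ℤ) : ℂ) * z ^ 2 → e ≠ 0 ∧ ‖e‖ ≤ u * L z := by
    intro z hz e he
    have he' : e = u * (ε * (g0 + g1 * z + g2 * z ^ 2) - x₁) -
        A * w * (ε' * (d0 + d1 * z + d2 * z ^ 2) + y₁) := by
      rw [he]
      push_cast
      ring
    have hne : ∀ m : ℤ, n₁ ≤ m → z ≠ m := fun m hm h => hf m hm (by
      rw [h] at hz
      exact_mod_cast hz)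
    rw [he']
    refine ⟨line_ne_zero (B := B) (B' := B') (A' := A') (n₁ := n₁) (n := n) (r := z)
      (by exact_mod_cast hA.ne') (by exact_mod_cast hA'.ne') (by exact_mod_cast hx₁)
      (by exact_mod_cast hy₁) (by exact_mod_cast hp) (by exact_mod_cast hxn) ?_ ?_
      (hne n₁ le_rfl) (hne n hn₁n), norm_line_le hA.le hx.le hy hw0.le hwu.le hε hε' _ _⟩
    · rw [mul_pow, hε2, one_mul, hg' z hz]
    · rw [mul_pow, hε2', one_mul, hd' z hz]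
  obtain ⟨r1, r2⟩ := key r (by rw [ha, hb, hc]; ring) _ rfl
  obtain ⟨s1, s2⟩ := key s (by rw [ha, hb, hc]; ring) _ rfl
  obtain ⟨t1, t2⟩ := key t (by rw [ha, hb, hc]; ring) _ rfl
  generalize nrm a b c (u * (ε * g0 - x₁) - A * w * (ε' * d0 + y₁))
    (u * ε * g1 - A * w * ε' * d1) (u * ε * g2 - A * w * ε' * d2) = q at hdv hpr
  have hq : q ≠ 0 := by
    intro h
    rw [h, Int.cast_zero] at hpr
    exact mul_ne_zero (mul_ne_zero r1 s1) t1 hpr.symm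
  have h3 : (p : ℝ) ≤ ‖(q : ℂ)‖ := by
    rw [Complex.norm_intCast]
    exact_mod_cast Int.le_of_dvd (abs_pos.2 hq) ((dvd_abs _ _).2 hdv)
  have h4 : (p : ℝ) ≤ u * L r * (u * L s) * (u * L t) := by
    refine h3.trans ?_
    rw [hpr, norm_mul, norm_mul]
    exact mul_le_mul (mul_le_mul r2 s2 (norm_nonneg _) ((norm_nonneg _).trans r2)) t2
      (norm_nonneg _) (mul_nonneg ((norm_nonneg _).trans r2) ((norm_nonneg _).trans s2))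
  have h5 : (u : ℝ) ^ 4 ≤ A * A' * n := by exact_mod_cast hu4
  calc (p : ℝ) ^ 4 ≤ (u * L r * (u * L s) * (u * L t)) ^ 4 := by gcongr
    _ = (L r * L s * L t) ^ 4 * ((u : ℝ) ^ 4) ^ 3 := by
      generalize L r = x1, L s = x2, L t = x3
      ring
    _ ≤ (L r * L s * L t) ^ 4 * ((A : ℝ) * A' * n) ^ 3 := by gcongr
    _ = _ := by rw [mul_pow _ (n : ℝ), ← mul_assoc]

end Pool.Agent.P.MP_4ef411_nt
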