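import Mathlib

/-!
A sextic with leading coefficient twice a square takes non-square values.
-/

set_option autoImplicit false

open Filter Topology Polynomial

namespace Pool.Agent.P.MP_4ef411_nt

theorem approx_sqrt (κ w5 w4 w3 w2 w1 w0 : ℝ) (hκ : 0 < κ) (z : ℕ → ℝ) (hz : ∀ i, 0 ≤ z i)
    (h : ∀ᶠ i : ℕ in atTop, z i ^ 2 = κ ^ 2 * i ^ 6 + w5 * i ^ 5 + w4 * i ^ 4 + w3 * i ^ 3 +
      w2 * i ^ 2 + w1 * i + w0) :
    ∃ s2 s1 s0 : ℝ,
      Tendsto (fun i : ℕ => z i - (κ * i ^ 3 + s2 * i ^ 2 + s1 * i + s0)) atTop (𝓝 0) := by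
  obtain ⟨s2, h2⟩ : ∃ s2, w5 = 2 * κ * s2 := ⟨w5 / (2 * κ), by field_simp⟩
  obtain ⟨s1, h1⟩ : ∃ s1, w4 = 2 * κ * s1 + s2 ^ 2 := ⟨(w4 - s2 ^ 2) / (2 * κ), by field_simp; ring⟩
  obtain ⟨s0, h0⟩ : ∃ s0, w3 = 2 * κ * s0 + 2 * s1 * s2 :=
    ⟨(w3 - 2 * s1 * s2) / (2 * κ), by field_simp; ring⟩
  refine ⟨s2, s1, s0, ?_⟩
  set S : ℝ[X] := C κ * X ^ 3 + C s2 * X ^ 2 + C s1 * X + C s0 with hS
  set R : ℝ[X] := C (w2 - s1 ^ 2 - 2 * s0 * s2) * X ^ 2 + C (w1 - 2 * s0 * s1) * X +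
    C (w0 - s0 ^ 2) with hR
  have dS : S.degree = 3 := by
    rw [hS]
    compute_degree!
    exact hκ.ne'
  have dR : R.degree < S.degree := by
    rw [dS]
    refine lt_of_le_of_lt (b := 2) ?_ (by norm_num)
    rw [hR]
    compute_degree
  have lS : S.leadingCoeff = κ := by
    rw [leadingCoeff, natDegree_eq_of_degree_eq_some dS, hS]
    simp [coeff_X]
  have t1 := (div_tendsto_atTop_zero_of_degree_lt R S dR).comp tendsto_natCast_atTop_atTop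
  have t2 := (tendsto_atTop_of_leadingCoeff_nonneg S (by rw [dS]; norm_num)
    (by rw [lS]; exact hκ.le)).comp (tendsto_natCast_atTop_atTop (R := ℝ))
  have t3 := t2.eventually_gt_atTop 0
  rw [tendsto_zero_iff_abs_tendsto_zero] at t1 ⊢
  refine squeeze_zero' (Eventually.of_forall fun _ => abs_nonneg _) ?_ t1
  filter_upwards [h, t3] with i hi hp
  have eS : eval (i : ℝ) S = κ * i ^ 3 + s2 * i ^ 2 + s1 * i + s0 := by simp [hS]
  have eR : eval (i : ℝ) R = (z i - eval (i : ℝ) S) * (z i + eval (i : ℝ) S) := by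
    rw [eS, hR]
    simp only [eval_add, eval_mul, eval_C, eval_pow, eval_X]
    rw [h2, h1, h0] at hi
    linear_combination -hi
  simp only [Function.comp_apply] at hp ⊢
  rw [← eS, eR, abs_div, abs_mul, le_div_iff₀ (abs_pos.2 hp.ne')]
  refine mul_le_mul_of_nonneg_left ?_ (abs_nonneg _)
  rw [abs_of_pos hp, abs_of_pos (by linarith [hz i])]
  linarith [hz i]

theorem exists_not_isSquare (c w5 w4 w3 w2 w1 w0 : ℤ) (hc : 0 < c) (i₀ : ℕ) :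
    ∃ i : ℕ, i₀ ≤ i ∧ ¬ IsSquare (2 * c ^ 2 * (i : ℤ) ^ 6 + w5 * i ^ 5 + w4 * i ^ 4 + w3 * i ^ 3 +
      w2 * i ^ 2 + w1 * i + w0) := by
  by_contra hcon
  have h1 : ∀ i : ℕ, ∃ z : ℤ, 0 ≤ z ∧ (i₀ ≤ i → z ^ 2 = 2 * c ^ 2 * (i : ℤ) ^ 6 + w5 * i ^ 5 +
      w4 * i ^ 4 + w3 * i ^ 3 + w2 * i ^ 2 + w1 * i + w0) := fun i => by
    by_cases hi : i₀ ≤ i
    · obtain ⟨r, hr⟩ := not_not.1 fun h => hcon ⟨i, hi, h⟩
      exact ⟨|r|, abs_nonneg _, fun _ => by rw [hr, sq_abs, sq]⟩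
    · exact ⟨0, le_rfl, fun h => absurd h hi⟩
  choose z hz0 hz using h1
  have hc' : (0 : ℝ) < c := by exact_mod_cast hc
  have h2 : (√2 : ℝ) ^ 2 = 2 := Real.sq_sqrt (by norm_num)
  obtain ⟨s2, s1, s0, ht⟩ := approx_sqrt (√2 * c) w5 w4 w3 w2 w1 w0 (by positivity)
    (fun i => (z i : ℝ)) (fun i => by exact_mod_cast hz0 i) (by
      filter_upwards [eventually_ge_atTop i₀] with i hi
      have h3 : ((z i : ℤ) : ℝ) ^ 2 = 2 * c ^ 2 * (i : ℝ) ^ 6 + w5 * i ^ 5 + w4 * i ^ 4 +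
          w3 * i ^ 3 + w2 * i ^ 2 + w1 * i + w0 := by exact_mod_cast hz i hi
      rw [h3, mul_pow, h2])
  have a1 := (tendsto_add_atTop_iff_nat 1).2 ht
  have a2 := (tendsto_add_atTop_iff_nat 2).2 ht
  have a3 := (tendsto_add_atTop_iff_nat 3).2 ht
  have t : Tendsto (fun i : ℕ => ((z (i + 3) - 3 * z (i + 2) + 3 * z (i + 1) - z i : ℤ) : ℝ))
      atTop (𝓝 (6 * c * √2)) := by
    have t0 := (((a3.sub (a2.const_mul 3)).add (a1.const_mul 3)).sub ht).add_const (6 * c * √2)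
    simp only [mul_zero, sub_zero, add_zero, zero_add] at t0
    refine t0.congr fun i => ?_
    push_cast
    ring
  obtain ⟨m, hm⟩ := Int.isClosedEmbedding_coe_real.isClosed_range.mem_of_tendsto t
    (Eventually.of_forall fun i => ⟨_, rfl⟩)
  have h4 : Irrational (((6 * c : ℤ) : ℝ) * √2) :=
    irrational_sqrt_two.intCast_mul (by positivity)
  exact h4.ne_int m (by push_cast; exact hm.symm)

end Pool.Agent.P.MP_4ef411_nt
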