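import Mathlib
import Pool.Agent.P.MP_4ef411_nt.Pell
import Pool.Agent.P.MP_4ef411_nt.NonSq

/-!
Smooth values of monic cubics along multiples of a given modulus.
-/

set_option autoImplicit false

namespace Pool.Agent.P.MP_4ef411_nt

theorem cubic_pos {a b c n : ℤ} (h : |a| + |b| + |c| + 1 ≤ n) :
    0 < n ^ 3 + a * n ^ 2 + b * n + c := by
  have ha := neg_abs_le a
  have hb := neg_abs_le b
  have hc := neg_abs_le c
  have ha0 := abs_nonneg a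
  have hb0 := abs_nonneg b
  have hc0 := abs_nonneg c
  have h1 : 1 ≤ n := by linarith
  have h2 : n ≤ n ^ 2 := by nlinarith
  have h3 : 1 ≤ n ^ 2 := h1.trans h2
  have h4 : (|a| + |b| + |c| + 1) * n ^ 2 ≤ n ^ 3 := by
    rw [pow_succ' n 2]
    exact mul_le_mul_of_nonneg_right h (sq_nonneg n)
  have h5 : -|a| * n ^ 2 ≤ a * n ^ 2 := mul_le_mul_of_nonneg_right ha (sq_nonneg n)
  have h6 : -|b| * n ≤ b * n := mul_le_mul_of_nonneg_right hb (by linarith)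
  have h7 : |b| * n ≤ |b| * n ^ 2 := mul_le_mul_of_nonneg_left h2 hb0
  have h8 : |c| * 1 ≤ |c| * n ^ 2 := mul_le_mul_of_nonneg_left h3 hc0
  linarith

theorem cubic_neg {a b c t : ℤ} (h : t ≤ -(|a| + |b| + |c| + 1)) :
    t ^ 3 + a * t ^ 2 + b * t + c < 0 := by
  have h1 := cubic_pos (a := -a) (b := b) (c := -c) (n := -t) (by
    rw [abs_neg, abs_neg]
    linarith)
  linarith [show (-t) ^ 3 + -a * (-t) ^ 2 + b * -t + -c = -(t ^ 3 + a * t ^ 2 + b * t + c) by ring]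

/-- The duplication formula. -/
theorem dupl {R : Type*} [CommRing R] (a b c t x : R) :
    (b - t ^ 2 + 2 * (t + a) * x + 2 * x ^ 2) ^ 2 -
      (-4 * (t ^ 3 + a * t ^ 2 + b * t + c) * x +
        ((3 * t ^ 2 + 2 * a * t + b) ^ 2 - 4 * (t ^ 3 + a * t ^ 2 + b * t + c) * (a + 2 * t))) =
      (x ^ 3 + a * x ^ 2 + b * x + c) * (4 * x + 8 * t + 4 * a) := by
  ring

theorem monic_smooth (a' b c M : ℤ) (hM : 0 < M) :
    ∃ K : ℝ, 0 ≤ K ∧ ∀ N : ℕ, ∃ n : ℤ, (N : ℤ) ≤ n ∧ M ∣ n ∧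
      n ^ 3 + 2 * a' * n ^ 2 + b * n + c ≠ 0 ∧
      ∀ p : ℕ, p.Prime → (p : ℤ) ∣ n ^ 3 + 2 * a' * n ^ 2 + b * n + c →
        (p : ℝ) ^ 4 ≤ K * n ^ 3 := by
  obtain ⟨a, ha⟩ : ∃ a, a = 2 * a' := ⟨_, rfl⟩
  rw [← ha]
  obtain ⟨T, hT⟩ : ∃ T, T = |a| + |b| + |c| + 1 := ⟨_, rfl⟩
  have ha0 := abs_nonneg a
  have hT0 : |a| + 1 ≤ T := by linarith [abs_nonneg b, abs_nonneg c]
  have ha1 : -|a| ≤ 2 * a' := ha ▸ neg_abs_le a
  have ha2 : 2 * a' ≤ |a| := ha ▸ le_abs_self a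
  obtain ⟨t₀, ht₀⟩ : ∃ t₀, t₀ = -a' - M * (2 * T) := ⟨_, rfl⟩
  have ht₀' : t₀ ≤ -T := by
    have := le_mul_of_one_le_left (show 0 ≤ 2 * T by linarith) hM
    linarith
  obtain ⟨F, hF⟩ : ∃ F, F = t₀ ^ 3 + a * t₀ ^ 2 + b * t₀ + c := ⟨_, rfl⟩
  obtain ⟨G, hG⟩ : ∃ G, G = 3 * t₀ ^ 2 + 2 * a * t₀ + b := ⟨_, rfl⟩
  have hF0 : F < 0 := hF ▸ cubic_neg (hT ▸ ht₀')
  obtain ⟨i, hi, hsq⟩ := exists_not_isSquare (8 * F ^ 2 * M ^ 3)
    (16 * F * (3 * (G * M) * (2 * F * M ^ 2) ^ 2))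
    (16 * F * (3 * (G * M) ^ 2 * (2 * F * M ^ 2) + (3 * t₀ + a) * (2 * F * M ^ 2) ^ 2))
    (16 * F * ((G * M) ^ 3 + 2 * (3 * t₀ + a) * (G * M) * (2 * F * M ^ 2)))
    (16 * F * ((3 * t₀ + a) * (G * M) ^ 2 + G * (2 * F * M ^ 2)))
    (16 * F * (G * (G * M))) (16 * F * F) (by have := hF0.ne; positivity) (|G| + 1).toNat
  obtain ⟨j, hj⟩ : ∃ j : ℤ, j = M * i := ⟨_, rfl⟩
  have hG0 := abs_nonneg G
  have hjG : |G| + 1 ≤ j := by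
    have h1 : |G| + 1 ≤ (i : ℤ) := Int.toNat_le.1 hi
    have h2 := le_mul_of_one_le_left (Int.natCast_nonneg i) hM
    linarith
  have hFj : F * j ≤ -j := by
    have := mul_le_mul_of_nonneg_right (show F ≤ -1 by omega) (show 0 ≤ j by linarith)
    linarith
  have hGj : G + 2 * (F * j) < 0 := by linarith [le_abs_self G]
  obtain ⟨t₁, ht₁⟩ : ∃ t₁, t₁ = t₀ + G * j + 2 * F * j ^ 2 := ⟨_, rfl⟩
  have ht₁' : t₁ ≤ t₀ := by
    have := mul_nonpos_of_nonneg_of_nonpos (show 0 ≤ j by linarith) hGj.le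
    linarith [show t₁ = t₀ + j * (G + 2 * (F * j)) by rw [ht₁]; ring]
  obtain ⟨F₁, hF₁⟩ : ∃ F₁, F₁ = t₁ ^ 3 + a * t₁ ^ 2 + b * t₁ + c := ⟨_, rfl⟩
  have hF₁0 : F₁ < 0 := hF₁ ▸ cubic_neg (hT ▸ ht₁'.trans ht₀')
  have hn₁ : T ≤ -a - 2 * t₁ := by linarith [le_abs_self a]
  obtain ⟨K, hK, h⟩ := core (a := a) (b := b) (c := c)
    (g0 := b - t₀ ^ 2) (g1 := 2 * (t₀ + a)) (g2 := 2)
    (d0 := b - t₁ ^ 2) (d1 := 2 * (t₁ + a)) (d2 := 2)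
    (A := -4 * F) (B := G ^ 2 - 4 * F * (a + 2 * t₀))
    (A' := -4 * F₁) (B' := (3 * t₁ ^ 2 + 2 * a * t₁ + b) ^ 2 - 4 * F₁ * (a + 2 * t₁))
    (x₁ := -(G + 4 * (F * j))) (y₁ := |3 * t₁ ^ 2 + 2 * a * t₁ + b|) (n₁ := -a - 2 * t₁) (M := M)
    (fun n => ⟨_, by rw [hF, hG]; exact dupl a b c t₀ n⟩)
    (fun n => ⟨_, by rw [hF₁]; exact dupl a b c t₁ n⟩)
    (fun r hr => by
      have h1 := dupl (a : ℂ) b c t₀ r
      rw [hr, zero_mul] at h1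
      rw [hF, hG]
      push_cast
      linear_combination h1)
    (fun r hr => by
      have h1 := dupl (a : ℂ) b c t₁ r
      rw [hr, zero_mul] at h1
      rw [hF₁]
      push_cast
      linear_combination h1)
    (by linarith) (by linarith)
    (by
      refine fun h => hsq ?_
      convert h using 1
      have e1 : c = F - (t₀ ^ 3 + a * t₀ ^ 2 + b * t₀) := by linarith
      have e2 : b = G - (3 * t₀ ^ 2 + 2 * a * t₀) := by linarith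
      rw [hF₁, ht₁, hj, e1, e2]
      ring)
    (by linarith) (abs_nonneg _) (by rw [ht₁]; ring) (by rw [sq_abs]; ring) (by linarith)
    (fun n hn => (cubic_pos (hT ▸ hn₁.trans hn)).ne') hM
  refine ⟨K, hK, fun N => ?_⟩
  obtain ⟨n, h1, h2, h3, h4⟩ := h N
  refine ⟨n, h1, ?_, (cubic_pos (hT ▸ hn₁.trans h2)).ne', h4⟩
  have h5 : M ∣ -a - 2 * t₁ :=
    ⟨4 * T - 2 * G * i - 4 * F * M * i ^ 2, by rw [ht₁, ht₀, hj, ha]; ring⟩
  exact dvd_of_eq (h3.add h5) (by ring)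

end Pool.Agent.P.MP_4ef411_nt
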